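import Pool.Agent.Q173.HS.Const

/-!
# MP_dc9318_an: no nonzero Hilbert–Schmidt Hankel operator with conjugate holomorphic symbol

For every bounded Reinhardt domain `Ω ⊆ ℂⁿ`, `n ≥ 2` (no pseudoconvexity or completeness), the
only Hilbert–Schmidt Hankel operator `H_{\bar f}` on `A²(Ω)`, `f` holomorphic, is `0`.
-/

set_option autoImplicit false

open MeasureTheory Complex Set Filter Topology
open scoped ComplexConjugate

namespace Pool.Agent.Results.MP_dc9318_an.NoHilbertSchmidt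

variable {n : ℕ}

/-- the inner product `∫_Ω \bar u v` -/
noncomputable def ip (Ω : Set (Fin n → ℂ)) (u v : (Fin n → ℂ) → ℂ) : ℂ :=
  ∫ z in Ω, conj (u z) * v z

/-- the squared norm `∫_Ω |u|²` -/
noncomputable def nsq (Ω : Set (Fin n → ℂ)) (u : (Fin n → ℂ) → ℂ) : ℝ := ∫ z in Ω, ‖u z‖ ^ 2

/-- `u ∈ L²(Ω)` -/
def InL2 (Ω : Set (Fin n → ℂ)) (u : (Fin n → ℂ) → ℂ) : Prop := MemLp u 2 (volume.restrict Ω)

/-- `u ∈ A²(Ω)` -/
def InA2 (Ω : Set (Fin n → ℂ)) (u : (Fin n → ℂ) → ℂ) : Prop := DifferentiableOn ℂ u Ω ∧ InL2 Ω u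

/-- `T` is a bounded linear operator `A²(Ω) → L²(Ω)` -/
structure IsOperator (Ω : Set (Fin n → ℂ)) (T : ((Fin n → ℂ) → ℂ) → (Fin n → ℂ) → ℂ) : Prop where
  maps : ∀ u, InA2 Ω u → InL2 Ω (T u)
  linear : ∀ u v, ∀ c : ℂ, InA2 Ω u → InA2 Ω v →
    ∀ᵐ z ∂(volume.restrict Ω), T (fun z => u z + c * v z) z = T u z + c * T v z
  bounded : ∃ C : ℝ, ∀ u, InA2 Ω u → nsq Ω (T u) ≤ C * nsq Ω u

/-- `T` extends the densely defined Hankel operator `v ↦ (I - P)(φ v)`, `v ∈ A²(Ω)`,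
`φ v ∈ L²(Ω)`: for such `v`, `T v` is orthogonal to `A²(Ω)` and `φ v - T v` lies in `A²(Ω)` -/
structure IsHankel (Ω : Set (Fin n → ℂ)) (φ : (Fin n → ℂ) → ℂ)
    (T : ((Fin n → ℂ) → ℂ) → (Fin n → ℂ) → ℂ) : Prop where
  dense : ∀ u, InA2 Ω u → ∀ ε > 0, ∃ v, InA2 Ω v ∧ InL2 Ω (fun z => φ z * v z) ∧
    nsq Ω (fun z => u z - v z) < ε
  orth : ∀ v, InA2 Ω v → InL2 Ω (fun z => φ z * v z) → ∀ w, InA2 Ω w → ip Ω w (T v) = 0
  diff : ∀ v, InA2 Ω v → InL2 Ω (fun z => φ z * v z) → ∃ w, InA2 Ω w ∧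
    ∀ᵐ z ∂(volume.restrict Ω), φ z * v z = T v z + w z

/-- orthonormal bases of `A²(Ω)` -/
structure IsONB (Ω : Set (Fin n → ℂ)) (e : ℕ → (Fin n → ℂ) → ℂ) : Prop where
  mem : ∀ k, InA2 Ω (e k)
  orthonormal : ∀ j k, ip Ω (e j) (e k) = if j = k then 1 else 0
  parseval : ∀ u, InA2 Ω u → HasSum (fun k => ‖ip Ω (e k) u‖ ^ 2) (nsq Ω u)

/-- Reinhardt sets -/
def IsReinhardt (Ω : Set (Fin n → ℂ)) : Prop :=
  ∀ z ∈ Ω, ∀ θ : Fin n → ℝ, (fun j => exp (θ j * I) * z j) ∈ Ω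

theorem inv_of_reinhardt {Ω : Set (Fin n → ℂ)} (h : IsReinhardt Ω) :
    Pool.Agent.Q173.HS.Inv Ω := by
  intro t z hz
  choose x hx using fun j => QuotientAddGroup.mk_surjective (t j)
  have h1 := h z hz fun j => 2 * Real.pi * x j
  have h2 : Pool.Agent.Q173.HS.rot t z = fun j => exp (((2 * Real.pi * x j : ℝ) : ℂ) * I) * z j := by
    funext j
    unfold Pool.Agent.Q173.HS.rot
    have h3 : t j = ((x j : ℝ) : UnitAddCircle) := (hx j).symm
    rw [h3, Pool.Agent.Q173.HS.ee_coe]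
    congr 2
    push_cast
    ring
  rw [h2]
  exact h1

open Pool.Agent.Q173.HS (L2 bergman)

theorem inner_eq {Ω : Set (Fin n → ℂ)} {x y : L2 Ω} {u v : (Fin n → ℂ) → ℂ}
    (hx : x =ᵐ[volume.restrict Ω] u) (hy : y =ᵐ[volume.restrict Ω] v) :
    inner ℂ x y = ip Ω u v := by
  rw [MeasureTheory.L2.inner_def]
  apply integral_congr_ae
  filter_upwards [hx, hy] with z h1 h2
  rw [h1, h2, RCLike.inner_apply, mul_comm]

theorem norm_eq {Ω : Set (Fin n → ℂ)} {x : L2 Ω} {u : (Fin n → ℂ) → ℂ}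
    (hx : x =ᵐ[volume.restrict Ω] u) : ‖x‖ ^ 2 = nsq Ω u := by
  have h1 := inner_eq hx hx
  rw [inner_self_eq_norm_sq_to_K] at h1
  have h2 : ip Ω u u = ((nsq Ω u : ℝ) : ℂ) := by
    unfold ip nsq
    rw [← integral_complex_ofReal]
    congr 1
    funext z
    rw [ofReal_pow, ← conj_mul']
  rw [h2] at h1
  have h3 : ((‖x‖ ^ 2 : ℝ) : ℂ) = ((nsq Ω u : ℝ) : ℂ) := by rw [← h1]; push_cast; rfl
  exact ofReal_injective h3

section Bundle

variable {Ω : Set (Fin n → ℂ)} {T : ((Fin n → ℂ) → ℂ) → (Fin n → ℂ) → ℂ}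

/-- a holomorphic representative -/
noncomputable def rep (x : bergman Ω) : (Fin n → ℂ) → ℂ := Classical.choose x.2

theorem rep_diff (x : bergman Ω) : DifferentiableOn ℂ (rep x) Ω := (Classical.choose_spec x.2).1

theorem rep_ae (x : bergman Ω) : (x : L2 Ω) =ᵐ[volume.restrict Ω] rep x :=
  (Classical.choose_spec x.2).2

theorem rep_mem (x : bergman Ω) : InA2 Ω (rep x) :=
  ⟨rep_diff x, (memLp_congr_ae (rep_ae x)).1 (Lp.memLp (x : L2 Ω))⟩

/-- the class of a function of the Bergman space -/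
noncomputable def cls {u : (Fin n → ℂ) → ℂ} (hu : InA2 Ω u) : bergman Ω :=
  ⟨MemLp.toLp u hu.2, u, hu.1, MemLp.coeFn_toLp hu.2⟩

theorem cls_ae {u : (Fin n → ℂ) → ℂ} (hu : InA2 Ω u) :
    ((cls hu : bergman Ω) : L2 Ω) =ᵐ[volume.restrict Ω] u := MemLp.coeFn_toLp hu.2

theorem inA2_comb {u v : (Fin n → ℂ) → ℂ} (hu : InA2 Ω u) (hv : InA2 Ω v) (c : ℂ) :
    InA2 Ω (fun z => u z + c * v z) :=
  ⟨hu.1.add (hv.1.const_mul c), MemLp.add hu.2 (MemLp.const_mul hv.2 c)⟩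

theorem ae_zero_of_nsq {w : (Fin n → ℂ) → ℂ} (hw : InL2 Ω w) (h : nsq Ω w ≤ 0) :
    ∀ᵐ z ∂(volume.restrict Ω), w z = 0 := by
  have h1 := norm_eq (MemLp.coeFn_toLp hw)
  have h2 : ‖MemLp.toLp w hw‖ = 0 := by
    have : ‖MemLp.toLp w hw‖ ^ 2 ≤ 0 := by rw [h1]; exact h
    exact pow_eq_zero_iff two_ne_zero |>.1 (le_antisymm this (sq_nonneg _))
  have h3 : MemLp.toLp w hw = 0 := norm_eq_zero.1 h2
  have h4 := MemLp.coeFn_toLp hw
  rw [h3] at h4
  filter_upwards [h4, Lp.coeFn_zero ℂ 2 (volume.restrict Ω)] with z h5 h6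
  rw [← h5, h6, Pi.zero_apply]

theorem nsq_zero_of_ae {w : (Fin n → ℂ) → ℂ} (h : ∀ᵐ z ∂(volume.restrict Ω), w z = 0) :
    nsq Ω w = 0 := by
  unfold nsq
  rw [integral_congr_ae (g := fun _ => (0 : ℝ)) (by
    filter_upwards [h] with z hz
    rw [hz, norm_zero, zero_pow two_ne_zero])]
  exact integral_zero _ _

theorem op_congr (hT : IsOperator Ω T) {u v : (Fin n → ℂ) → ℂ} (hu : InA2 Ω u) (hv : InA2 Ω v)
    (h : u =ᵐ[volume.restrict Ω] v) : T u =ᵐ[volume.restrict Ω] T v := by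
  obtain ⟨C, hC⟩ := hT.bounded
  have hw := inA2_comb hu hv (-1)
  have h0 : nsq Ω (fun z => u z + (-1) * v z) = 0 := by
    apply nsq_zero_of_ae
    filter_upwards [h] with z hz
    rw [hz]; ring
  have h1 := hC _ hw
  rw [h0, mul_zero] at h1
  filter_upwards [ae_zero_of_nsq (hT.maps _ hw) h1, hT.linear u v (-1) hu hv] with z h2 h3
  rw [h3] at h2
  linear_combination h2

/-- the operator on classes, as a linear map -/
noncomputable def lin (hT : IsOperator Ω T) : bergman Ω →ₗ[ℂ] L2 Ω where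
  toFun x := MemLp.toLp (T (rep x)) (hT.maps _ (rep_mem x))
  map_add' x y := by
    apply Lp.ext
    have h1 : rep (x + y) =ᵐ[volume.restrict Ω] fun z => rep x z + 1 * rep y z := by
      filter_upwards [rep_ae (x + y), rep_ae x, rep_ae y, Lp.coeFn_add (x : L2 Ω) (y : L2 Ω)]
        with z h1 h2 h3 h4
      rw [← h1, Submodule.coe_add, h4, Pi.add_apply, h2, h3, one_mul]
    have h2 := op_congr hT (rep_mem (x + y)) (inA2_comb (rep_mem x) (rep_mem y) 1) h1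
    filter_upwards [MemLp.coeFn_toLp (hT.maps _ (rep_mem (x + y))),
      MemLp.coeFn_toLp (hT.maps _ (rep_mem x)), MemLp.coeFn_toLp (hT.maps _ (rep_mem y)), h2,
      hT.linear _ _ 1 (rep_mem x) (rep_mem y),
      Lp.coeFn_add (MemLp.toLp (T (rep x)) (hT.maps _ (rep_mem x)))
        (MemLp.toLp (T (rep y)) (hT.maps _ (rep_mem y)))] with z a1 a2 a3 a4 a5 a6
    rw [a1, a6, Pi.add_apply, a2, a3, a4, a5, one_mul]
  map_smul' c x := by
    apply Lp.ext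
    have hz : InA2 Ω (fun _ => 0) := ⟨differentiableOn_const 0, MemLp.zero⟩
    have h1 : rep (c • x) =ᵐ[volume.restrict Ω] fun z => (0 : ℂ) + c * rep x z := by
      filter_upwards [rep_ae (c • x), rep_ae x, Lp.coeFn_smul c (x : L2 Ω)] with z h1 h2 h3
      rw [← h1, Submodule.coe_smul, h3, Pi.smul_apply, h2, smul_eq_mul, zero_add]
    have h2 := op_congr hT (rep_mem (c • x)) (inA2_comb hz (rep_mem x) c) h1
    obtain ⟨C, hC⟩ := hT.bounded
    have h3 := hC _ hz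
    rw [nsq_zero_of_ae (w := fun _ => (0 : ℂ)) (Eventually.of_forall fun _ => rfl), mul_zero] at h3
    filter_upwards [MemLp.coeFn_toLp (hT.maps _ (rep_mem (c • x))),
      MemLp.coeFn_toLp (hT.maps _ (rep_mem x)), h2,
      hT.linear _ _ c hz (rep_mem x), ae_zero_of_nsq (hT.maps _ hz) h3,
      Lp.coeFn_smul c (MemLp.toLp (T (rep x)) (hT.maps _ (rep_mem x)))] with z a1 a2 a4 a5 a6 a7
    rw [a1, a4, a5, a6, RingHom.id_apply, a7, Pi.smul_apply, a2, smul_eq_mul, zero_add]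

theorem lin_ae (hT : IsOperator Ω T) (x : bergman Ω) :
    (lin hT x : L2 Ω) =ᵐ[volume.restrict Ω] T (rep x) :=
  MemLp.coeFn_toLp (hT.maps _ (rep_mem x))

theorem lin_bound (hT : IsOperator Ω T) : ∃ K : ℝ, ∀ x : bergman Ω, ‖lin hT x‖ ≤ K * ‖x‖ := by
  obtain ⟨C, hC⟩ := hT.bounded
  refine ⟨Real.sqrt (max C 0), fun x => ?_⟩
  have h1 := hC _ (rep_mem x)
  rw [← norm_eq (lin_ae hT x), ← norm_eq (rep_ae x)] at h1
  have h2 : ‖lin hT x‖ ^ 2 ≤ max C 0 * ‖(x : L2 Ω)‖ ^ 2 :=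
    h1.trans (mul_le_mul_of_nonneg_right (le_max_left _ _) (sq_nonneg _))
  have h3 : ‖lin hT x‖ ^ 2 ≤ (Real.sqrt (max C 0) * ‖x‖) ^ 2 := by
    rw [mul_pow, Real.sq_sqrt (le_max_right _ _)]
    exact h2
  exact abs_le_of_sq_le_sq' h3 (by positivity) |>.2

end Bundle

theorem result (hn : 2 ≤ n) {Ω : Set (Fin n → ℂ)} (hΩ : IsOpen Ω) (hc : IsConnected Ω)
    (hb : Bornology.IsBounded Ω) (hR : IsReinhardt Ω) {f : (Fin n → ℂ) → ℂ}
    (hf : DifferentiableOn ℂ f Ω) {T : ((Fin n → ℂ) → ℂ) → (Fin n → ℂ) → ℂ}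
    (hT : IsOperator Ω T) (hH : IsHankel Ω (fun z => conj (f z)) T)
    (hHS : ∃ e, IsONB Ω e ∧ Summable fun k => nsq Ω (T (e k))) :
    ∀ u, InA2 Ω u → ∀ᵐ z ∂(volume.restrict Ω), T u z = 0 := by
  obtain ⟨K, hK⟩ := lin_bound hT
  set A : bergman Ω →L[ℂ] L2 Ω := (lin hT).mkContinuous K hK with hA
  have hAae : ∀ x : bergman Ω, (A x : L2 Ω) =ᵐ[volume.restrict Ω] T (rep x) := lin_ae hT
  have hdom : ∀ x : bergman Ω, x ∈ Pool.Agent.Q173.HS.hankelDomain Ω (fun z => conj (f z)) →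
      InL2 Ω (fun z => conj (f z) * rep x z) := by
    intro x hx
    have h1 : MemLp (fun z => conj (f z) * (x : L2 Ω) z) 2 (volume.restrict Ω) := hx
    refine (memLp_congr_ae ?_).1 h1
    filter_upwards [rep_ae x] with z hz
    rw [hz]
  have hk : Pool.Agent.Q173.HS.IsHankel Ω (fun z => conj (f z)) A := by
    refine ⟨?_, fun x hx v hv => ?_, fun x hx => ?_⟩
    · rw [Metric.dense_iff]
      intro x r hr
      obtain ⟨v, hv, hv2, hv3⟩ := hH.dense (rep x) (rep_mem x) (r ^ 2) (by positivity)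
      refine ⟨cls hv, ?_, ?_⟩
      · rw [Metric.mem_ball, dist_comm, dist_eq_norm]
        have h1 : ((x - cls hv : bergman Ω) : L2 Ω) =ᵐ[volume.restrict Ω]
            fun z => rep x z - v z := by
          filter_upwards [rep_ae x, cls_ae hv, Lp.coeFn_sub (x : L2 Ω) (cls hv : bergman Ω)]
            with z h1 h2 h3
          rw [Submodule.coe_sub, h3, Pi.sub_apply, h1, h2]
        have h2 := norm_eq h1
        rw [← h2] at hv3
        exact lt_of_pow_lt_pow_left₀ 2 hr.le hv3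
      · have h1 : MemLp (fun z => conj (f z) * ((cls hv : bergman Ω) : L2 Ω) z) 2
            (volume.restrict Ω) := by
          refine (memLp_congr_ae ?_).1 hv2
          filter_upwards [cls_ae hv] with z hz
          rw [hz]
        exact h1
    · have h1 := hH.orth (rep x) (rep_mem x) (hdom x hx) (rep ⟨v, hv⟩) (rep_mem ⟨v, hv⟩)
      rw [← h1]
      exact inner_eq (rep_ae ⟨v, hv⟩) (hAae x)
    · obtain ⟨w, hw, hw2⟩ := hH.diff (rep x) (rep_mem x) (hdom x hx)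
      refine ⟨(cls hw : bergman Ω), (cls hw : bergman Ω).2, ?_⟩
      filter_upwards [hw2, hAae x, cls_ae hw, rep_ae x] with z h1 h2 h3 h4
      rw [h4, h1, h2, h3]
  obtain ⟨e, he, hs⟩ := hHS
  set b : ℕ → bergman Ω := fun k => cls (he.mem k) with hbdef
  have hb1 : Orthonormal ℂ b := by
    rw [orthonormal_iff_ite]
    intro i j
    rw [← he.orthonormal i j]
    exact inner_eq (cls_ae (he.mem i)) (cls_ae (he.mem j))
  have hb2 : ∀ x : bergman Ω, HasSum (fun i => ‖inner ℂ (b i) x‖ ^ 2) (‖x‖ ^ 2) := by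
    intro x
    have h1 := he.parseval (rep x) (rep_mem x)
    have h2 : ∀ i, inner ℂ (b i) x = ip Ω (e i) (rep x) := fun i =>
      inner_eq (cls_ae (he.mem i)) (rep_ae x)
    have h3 : ‖x‖ ^ 2 = nsq Ω (rep x) := norm_eq (rep_ae x)
    rw [h3]
    exact h1.congr_fun fun i => by rw [h2]
  have hb3 : Summable fun i => ‖A (b i)‖ ^ 2 := by
    refine hs.congr fun k => ?_
    have h1 : rep (b k) =ᵐ[volume.restrict Ω] e k := (rep_ae (b k)).symm.trans (cls_ae (he.mem k))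
    have h2 : (A (b k) : L2 Ω) =ᵐ[volume.restrict Ω] T (e k) :=
      (hAae (b k)).trans (op_congr hT (rep_mem (b k)) (he.mem k) h1)
    exact (norm_eq h2).symm
  have hne : Ωᶜ.Nonempty := by
    have hne : Nonempty (Fin n) := ⟨⟨0, by omega⟩⟩
    rw [Set.nonempty_compl]
    intro h
    rw [h] at hb
    exact NormedSpace.unbounded_univ ℝ (Fin n → ℂ) hb
  have hzero := Pool.Agent.Q173.HS.main hn ⟨hΩ, hc, hb, hne, inv_of_reinhardt hR, hf, hk⟩
    hb1 hb2 hb3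
  intro u hu
  have h1 : rep (cls hu) =ᵐ[volume.restrict Ω] u := (rep_ae (cls hu)).symm.trans (cls_ae hu)
  have h2 := op_congr hT (rep_mem (cls hu)) hu h1
  have h3 : (A (cls hu) : L2 Ω) = 0 := by rw [hzero]; rfl
  have h4 := hAae (cls hu)
  rw [h3] at h4
  filter_upwards [h2, h4, Lp.coeFn_zero ℂ 2 (volume.restrict Ω)] with z h5 h6 h7
  rw [← h5, ← h6, h7, Pi.zero_apply]

end Pool.Agent.Results.MP_dc9318_an.NoHilbertSchmidt
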